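import Mathlib

/-!
# A local basis of a finite algebra at a prime divisor of the base

Adapted from `Pool/Agent/N61/AC/Loc.lean` (helper61, helper753); the algebra need not be normal.
-/

set_option autoImplicit false

namespace Pool.Agent.J6H21.LS

open IsLocalRing

theorem local_basis {R A : Type} [CommRing R] [IsDomain R] [IsNoetherianRing R] [CommRing A]
    [IsDomain A] [Algebra R A] [Module.Finite R A] [FaithfulSMul R A]
    (F : R) (hF : Prime F) (N : ℕ) (hN : Module.finrank R A = N) :
    ∃ (ω : Fin N → A) (g : R), ¬ F ∣ g ∧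
      ∀ a, ∃ r : Fin N → R, algebraMap R A g * a = ∑ i, algebraMap R A (r i) * ω i := by
  classical
  have hP : (Ideal.span {F}).IsPrime := (Ideal.span_singleton_prime hF.ne_zero).mpr hF
  set p : Ideal R := Ideal.span {F} with hp
  have hmemp : ∀ r : R, r ∈ p.primeCompl ↔ ¬ F ∣ r := fun r => by
    rw [Ideal.mem_primeCompl_iff, hp, Ideal.mem_span_singleton]
  let Rₚ := Localization.AtPrime p
  let Sₚ := Localization (Algebra.algebraMapSubmonoid A p.primeCompl)
  let _ : Algebra Rₚ Sₚ := localizationAlgebra p.primeCompl A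
  have : IsScalarTower R Rₚ Sₚ := IsScalarTower.of_algebraMap_eq'
    (by rw [RingHom.algebraMap_toAlgebra, IsLocalization.map_comp, ← IsScalarTower.algebraMap_eq])
  have : IsLocalization (Submonoid.map (algebraMap R A) (Ideal.primeCompl p)) Sₚ :=
    inferInstanceAs (IsLocalization (Algebra.algebraMapSubmonoid A p.primeCompl) Sₚ)
  have e0 : Algebra.algebraMapSubmonoid A p.primeCompl ≤ nonZeroDivisors A :=
    Submonoid.map_le_of_le_comap _ <| p.primeCompl_le_nonZeroDivisors.trans
      (nonZeroDivisors_le_comap_nonZeroDivisors_of_injective _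
        (FaithfulSMul.algebraMap_injective _ _))
  have : IsDomain Sₚ := IsLocalization.isDomain_of_le_nonZeroDivisors _ e0
  have hinjS : Function.Injective (algebraMap A Sₚ) := IsLocalization.injective _ e0
  have hinjR : Function.Injective (algebraMap R Rₚ) :=
    IsLocalization.injective _ p.primeCompl_le_nonZeroDivisors
  have hinjRS : Function.Injective (algebraMap Rₚ Sₚ) :=
    localizationAlgebra_injective (R := R) (S := A) (Rₘ := Rₚ) (Sₘ := Sₚ) (M := p.primeCompl)
      (FaithfulSMul.algebraMap_injective R A)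
  have htf : Module.IsTorsionFree Rₚ Sₚ := by
    rw [Module.isTorsionFree_iff_algebraMap_injective]
    exact hinjRS
  have : Module.Finite Rₚ Sₚ := .of_isLocalization R A p.primeCompl
  have hNoeR : IsNoetherianRing Rₚ := IsLocalization.isNoetherianRing p.primeCompl _ inferInstance
  have hmax : maximalIdeal Rₚ = Ideal.span {algebraMap R Rₚ F} := by
    rw [← Localization.AtPrime.map_eq_maximalIdeal]
    change Ideal.map (algebraMap R Rₚ) (Ideal.span {F}) = _
    rw [Ideal.map_span, Set.image_singleton]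
  have hprin : (maximalIdeal Rₚ).IsPrincipal := ⟨⟨algebraMap R Rₚ F, hmax⟩⟩
  have hPID : IsPrincipalIdealRing Rₚ :=
    ((tfae_of_isNoetherianRing_of_isLocalRing_of_isDomain Rₚ).out 4 0).mp hprin
  have hfree : Module.Free Rₚ Sₚ := Module.free_of_finite_type_torsion_free'
  -- the rank
  have hfin : Module.finrank Rₚ Sₚ = N := by
    have h1 : Module.finrank Rₚ Sₚ = Module.finrank R Sₚ :=
      IsLocalization.finrank_eq Rₚ p.primeCompl p.primeCompl_le_nonZeroDivisors
    have h2 : IsLocalizedModule p.primeCompl (IsScalarTower.toAlgHom R A Sₚ).toLinearMap :=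
      isLocalizedModule_iff_isLocalization.mpr inferInstance
    have h3 : Module.finrank R Sₚ = Module.finrank R A :=
      IsLocalizedModule.finrank_eq p.primeCompl (IsScalarTower.toAlgHom R A Sₚ).toLinearMap
        p.primeCompl_le_nonZeroDivisors
    rw [h1, h3, hN]
  have hunitR : ∀ g : R, ¬ F ∣ g → IsUnit (algebraMap R Rₚ g) := fun g hg =>
    IsLocalization.map_units Rₚ (⟨g, (hmemp g).mpr hg⟩ : p.primeCompl)
  have htower : ∀ r : R, algebraMap A Sₚ (algebraMap R A r) =
      algebraMap Rₚ Sₚ (algebraMap R Rₚ r) := fun r => by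
    rw [← IsScalarTower.algebraMap_apply R A Sₚ, ← IsScalarTower.algebraMap_apply R Rₚ Sₚ]
  have hsurjS : ∀ d : Sₚ, ∃ a : A, ∃ g : R, ¬ F ∣ g ∧
      algebraMap Rₚ Sₚ (algebraMap R Rₚ g) * d = algebraMap A Sₚ a := by
    intro d
    obtain ⟨⟨a, ⟨t, ht⟩⟩, h⟩ := IsLocalization.surj
      (Algebra.algebraMapSubmonoid A p.primeCompl) d
    obtain ⟨g, hg, rfl⟩ := ht
    refine ⟨a, g, (hmemp g).mp hg, ?_⟩
    rw [← htower, mul_comm]
    exact h
  -- a basis
  set B₀ := (Module.finBasis Rₚ Sₚ).reindex (finCongr hfin) with hB₀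
  choose ω gω hgω hω using fun i => hsurjS (B₀ i)
  set B := B₀.isUnitSMul (fun i => hunitR (gω i) (hgω i)) with hB
  have hBω : ∀ i, B i = algebraMap A Sₚ (ω i) := by
    intro i
    rw [hB, Module.Basis.isUnitSMul_apply, Algebra.smul_def]
    exact hω i
  have hexp : ∀ a : A, ∃ g : R, ¬ F ∣ g ∧ ∃ r : Fin N → R,
      algebraMap R A g * a = ∑ i, algebraMap R A (r i) * ω i := by
    intro a
    obtain ⟨⟨g, hg⟩, hgi⟩ := IsLocalization.exist_integer_multiples_of_finite p.primeCompl
      (fun i => B.repr (algebraMap A Sₚ a) i)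
    choose r hr using hgi
    refine ⟨g, (hmemp g).mp hg, r, hinjS ?_⟩
    rw [map_mul, map_sum, htower]
    have h1 := B.sum_repr (algebraMap A Sₚ a)
    calc algebraMap Rₚ Sₚ (algebraMap R Rₚ g) * algebraMap A Sₚ a
        = algebraMap Rₚ Sₚ (algebraMap R Rₚ g) *
          ∑ i, B.repr (algebraMap A Sₚ a) i • B i := by rw [h1]
      _ = _ := by
        rw [Finset.mul_sum]
        refine Finset.sum_congr rfl fun i _ => ?_
        have h2 : algebraMap R Rₚ (r i) = algebraMap R Rₚ g * B.repr (algebraMap A Sₚ a) i := by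
          rw [hr i]
          exact Algebra.smul_def _ _
        rw [map_mul, htower, h2, hBω i, Algebra.smul_def, ← mul_assoc, ← map_mul]
  obtain ⟨T, hT⟩ := (Module.Finite.fg_top : (⊤ : Submodule R A).FG)
  choose gt hgt rt hrt using hexp
  refine ⟨ω, ∏ τ ∈ T, gt τ, ?_, ?_⟩
  · intro h
    obtain ⟨τ, -, hτ⟩ := (hF.dvd_finsetProd_iff _).mp h
    exact hgt τ hτ
  · intro a
    have ha : a ∈ Submodule.span R (T : Set A) := by rw [hT]; trivial
    refine Submodule.span_induction ?_ ?_ ?_ ?_ ha
    · intro τ hτ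
      refine ⟨fun i => (∏ τ' ∈ T.erase τ, gt τ') * rt τ i, ?_⟩
      rw [← Finset.mul_prod_erase T gt hτ, map_mul, mul_assoc, mul_comm (algebraMap R A
        (∏ τ' ∈ T.erase τ, gt τ')) τ, ← mul_assoc, hrt τ, Finset.sum_mul]
      refine Finset.sum_congr rfl fun i _ => ?_
      rw [map_mul]; ring
    · exact ⟨0, by simp⟩
    · rintro x y - - ⟨r, hr⟩ ⟨r', hr'⟩
      refine ⟨r + r', ?_⟩
      rw [mul_add, hr, hr', ← Finset.sum_add_distrib]
      refine Finset.sum_congr rfl fun i _ => ?_
      rw [Pi.add_apply, map_add]; ring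
    · rintro c x - ⟨r, hr⟩
      refine ⟨fun i => c * r i, ?_⟩
      rw [Algebra.smul_def, mul_left_comm, hr, Finset.mul_sum]
      refine Finset.sum_congr rfl fun i _ => ?_
      rw [map_mul]; ring

end Pool.Agent.J6H21.LS
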