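import Mathlib
import Pool.Agent.N753.AC.Cnt

/-!
# The primes at which almost all points meet a given divisor outside another one
-/

set_option autoImplicit false
set_option linter.unusedSectionVars false

namespace Pool.Agent.J6H21.LS

open NumberField IsDedekindDomain Finset Pool.Agent.H691R3
open Pool.Agent.TH876.Loc hiding mx
open Pool.Agent.N753.LS Pool.Agent.N753.SF Pool.Agent.N753.SU Pool.Agent.N753.AC Polynomial

variable {K : Type} [Field K] [NumberField K]

/-- the two properties of the exceptional sets -/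
def Prop1 {m : ℕ} (E1 : Set (Fin m → K)) : Prop :=
  ∀ (r : ℕ) (F : Fin r → MvPolynomial (Fin m) K) (I : Finset (Fin m)),
        (∀ j, Irreducible (F j)) → (∀ j k, j ≠ k → ¬ Associated (F j) (F k)) → ∀ κ : ℝ, 0 < κ →
        ∃ h0 : ℝ, ∀ x : Fin m → K, x ∉ E1 → h0 ≤ htm x →
          (∀ j, MvPolynomial.eval x (F j) ≠ 0) →
            (wtt F I - κ) * htm x ≤ ∑ v ∈ UU F I x, Real.log (Nv v) ∧
              ∀ i, (1 - κ) * htm x ≤ hr (aff (x i))

/-- the second property -/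
def Prop2 {m : ℕ} (E2 : Set (Fin m → K)) : Prop :=
  ∀ F G : MvPolynomial (Fin m) K, IsRelPrime F G → ∀ κ : ℝ, 0 < κ →
        ∃ h0 : ℝ, ∀ x : Fin m → K, x ∉ E2 → h0 ≤ htm x →
          (MvPolynomial.eval x F ≠ 0 ∨ MvPolynomial.eval x G ≠ 0) ∧
            idHt F G x ≤ κ * htm x

open Classical in
/-- the primes at which the point is integral and meets the divisor outside `g = 0` -/
noncomputable def gd {m : ℕ} (F g : MvPolynomial (Fin m) K) (Bad : Finset (Pr K))
    (x : Fin m → K) : Finset (Pr K) :=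
  (ddm F x).filter fun v => v ∉ Bad ∧ fv v (MvPolynomial.eval x g) = 1

theorem one_le_wt {n : ℕ} (hn : 1 ≤ n) : 1 ≤ wt n := by
  unfold wt
  split_ifs
  · exact hn
  · norm_num

theorem tdeg_pos {m : ℕ} {F : MvPolynomial (Fin m) K} (hF : Irreducible F) :
    1 ≤ ∑ i, F.degreeOf i := by
  by_contra hcon
  have h1 : ∑ i, F.degreeOf i = 0 := by omega
  have h2 : ∀ i, F.degreeOf i = 0 := fun i =>
    (Finset.sum_eq_zero_iff.1 h1) i (Finset.mem_univ i)
  have h3 : F.totalDegree = 0 := by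
    rw [MvPolynomial.totalDegree_eq_zero_iff]
    intro s hs i
    have := MvPolynomial.monomial_le_degreeOf i hs
    rw [h2 i] at this
    omega
  rw [MvPolynomial.totalDegree_eq_zero_iff_eq_C] at h3
  have h4 : F.coeff 0 ≠ 0 := by
    intro h
    rw [h, MvPolynomial.C_0] at h3
    exact hF.ne_zero h3
  apply hF.not_isUnit
  rw [h3]
  exact (isUnit_iff_ne_zero.2 h4).map MvPolynomial.C

theorem gd_cnt (hUM : StmUM) {m : ℕ} {E1 E2 : Set (Fin m → K)} (h1 : Prop1 E1) (h2 : Prop2 E2)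
    {F : MvPolynomial (Fin m) K} (hF : Irreducible F)
    {g : MvPolynomial (Fin m) K} (hg : ¬ F ∣ g) (Bad : Finset (Pr K)) :
    ∃ h0 : ℝ, ∀ x : Fin m → K, x ∉ E1 → x ∉ E2 → h0 ≤ htm x → MvPolynomial.eval x F ≠ 0 →
      (1 / 2 : ℝ) * htm x ≤ ∑ v ∈ gd F g Bad x, Real.log (Nv v) := by
  classical
  have hF0 : F ≠ 0 := hF.ne_zero
  have hg0 : g ≠ 0 := fun h => hg (h ▸ dvd_zero F)
  obtain ⟨a1, ha1⟩ := h1 1 (fun _ => F) ∅ (fun _ => hF)
    (fun j k hjk => absurd (Subsingleton.elim j k) hjk) (1 / 8) (by norm_num)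
  obtain ⟨a2, ha2⟩ := h2 F g (hF.isRelPrime_iff_not_dvd.2 hg) (1 / 8) (by norm_num)
  obtain ⟨C2, hC2⟩ := ovl hUM F g
  obtain ⟨T0, hT0⟩ : ∃ T0 : Finset (Pr K), T0 = Bad ∪ (lm_fin (cfs_ne hg0)).toFinset := ⟨_, rfl⟩
  obtain ⟨C0, hC0⟩ : ∃ C0 : ℝ, C0 = ∑ v ∈ T0, Real.log (Nv v) := ⟨_, rfl⟩
  have hC00 : 0 ≤ C0 := by
    rw [hC0]
    exact Finset.sum_nonneg fun v _ => (log_Nv_pos v).le
  obtain ⟨M, hM⟩ : ∃ M : ℝ, M = 8 * (|C2| + C0) := ⟨_, rfl⟩
  refine ⟨max (max a1 a2) (max M 0), ?_⟩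
  intro x hx1 hx2 hh hFx
  have e1 : a1 ≤ htm x := (le_max_left _ _).trans ((le_max_left _ _).trans hh)
  have e2 : a2 ≤ htm x := (le_max_right _ _).trans ((le_max_left _ _).trans hh)
  have e3 : M ≤ htm x := (le_max_left _ _).trans ((le_max_right _ _).trans hh)
  have e4 : 0 ≤ htm x := (le_max_right _ _).trans ((le_max_right _ _).trans hh)
  obtain ⟨f1, -⟩ := ha1 x hx1 e1 (fun _ => hFx)
  obtain ⟨-, f2⟩ := ha2 x hx2 e2
  have hw : (1 : ℝ) ≤ wtt (fun _ : Fin 1 => F) ∅ := by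
    unfold wtt
    have h5' : 1 ≤ wt (∑ i, F.degreeOf i) := one_le_wt (tdeg_pos hF)
    simp only [Finset.univ_unique, Finset.sum_singleton, Finset.card_empty, Nat.cast_zero,
      add_zero]
    exact_mod_cast h5'
  have hUU : UU (fun _ : Fin 1 => F) ∅ x ⊆ ddm F x := by
    intro v hv
    rw [UU, Finset.mem_biUnion] at hv
    obtain ⟨k, hk, hkv⟩ := hv
    rcases k with j | i
    · exact hkv
    · simp at hk
  have f3 : ∑ v ∈ UU (fun _ : Fin 1 => F) ∅ x, Real.log (Nv v) ≤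
      ∑ v ∈ ddm F x, Real.log (Nv v) :=
    Finset.sum_le_sum_of_subset_of_nonneg hUU fun v _ _ => (log_Nv_pos v).le
  obtain ⟨Pg, hPg⟩ : ∃ Pg : Finset (Pr K), Pg = (ddm F x).filter fun v =>
    fv v (MvPolynomial.eval x g) < 1 := ⟨_, rfl⟩
  have f7 : ∑ v ∈ Pg, Real.log (Nv v) ≤ idHt F g x + C2 := by
    refine hC2 x hFx _ fun v hv => ?_
    rw [hPg, Finset.mem_filter, mem_ddm hFx] at hv
    exact ⟨hv.1.1, hv.1.2, hv.2⟩
  have f8 : ∑ v ∈ ddm F x, Real.log (Nv v) ≤ ∑ v ∈ gd F g Bad x, Real.log (Nv v) +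
      (C0 + ∑ v ∈ Pg, Real.log (Nv v)) := by
    have hsub : ddm F x ⊆ gd F g Bad x ∪ (T0 ∪ Pg) := by
      intro v hv
      by_cases hvT : v ∈ T0
      · exact Finset.mem_union_right _ (Finset.mem_union_left _ hvT)
      by_cases hvg : fv v (MvPolynomial.eval x g) < 1
      · refine Finset.mem_union_right _ (Finset.mem_union_right _ ?_)
        rw [hPg, Finset.mem_filter]
        exact ⟨hv, hvg⟩
      refine Finset.mem_union_left _ ?_
      unfold gd
      rw [Finset.mem_filter]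
      refine ⟨hv, fun hb => hvT (by rw [hT0]; exact Finset.mem_union_left _ hb), ?_⟩
      rw [mem_ddm hFx] at hv
      rw [not_lt] at hvg
      have hgx : MvPolynomial.eval x g ≠ 0 := by
        intro h0
        rw [h0, map_zero] at hvg
        linarith
      have hlm : lm (Sum.inr v) (cfs g) = 0 := by
        by_contra hcon
        refine hvT ?_
        rw [hT0]
        exact Finset.mem_union_right _ (by
          rw [Set.Finite.mem_toFinset]; exact hcon)
      have h3 := lh_nonneg v hgx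
      rw [lh_int hlm hv.1] at h3
      have h4 : Real.log (fv v (MvPolynomial.eval x g)) ≤ 0 := by
        have : nm (Sum.inr v) (MvPolynomial.eval x g) =
          Real.log (fv v (MvPolynomial.eval x g)) := rfl
        linarith
      have h6 := (Real.log_nonpos_iff (by linarith)).1 h4
      exact le_antisymm h6 hvg
    refine (Finset.sum_le_sum_of_subset_of_nonneg hsub fun v _ _ => (log_Nv_pos v).le).trans ?_
    have hu : ∀ A B : Finset (Pr K), ∑ v ∈ A ∪ B, Real.log (Nv v) ≤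
        ∑ v ∈ A, Real.log (Nv v) + ∑ v ∈ B, Real.log (Nv v) := by
      intro A B
      rw [← Finset.sum_union_inter]
      exact le_add_of_nonneg_right (Finset.sum_nonneg fun v _ => (log_Nv_pos v).le)
    have u1 := hu (gd F g Bad x) (T0 ∪ Pg)
    have u2 := hu T0 Pg
    rw [hC0]
    linarith
  have b2 := le_abs_self C2
  have b3 : (1 - 1 / 8 : ℝ) * htm x ≤ (wtt (fun _ : Fin 1 => F) ∅ - 1 / 8) * htm x :=
    mul_le_mul_of_nonneg_right (by linarith) e4
  rw [hM] at e3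
  linarith

end Pool.Agent.J6H21.LS
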