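import Mathlib
import Pool.Agent.N751.LS.Pole
import Pool.Agent.N427.PC.HTMV

/-!
# Heights of the values of integral elements
-/

set_option autoImplicit false
set_option linter.unusedSectionVars false

namespace Pool.Agent.J6H21.LS

open NumberField Module Polynomial Height
open Pool.Agent.N265.CV (cf)

/-- the height of the tuple of the coefficients of a monic polynomial -/
theorem ht_cf {M : Type} [Field M] [NumberField M] (D : ℕ) (Q : M[X]) (hQ : Q.Monic)
    (hD : Q.natDegree = D) : logHeight (cf D Q) ≤ ∑ j : Fin D, logHeight₁ (Q.coeff j) := by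
  have hx0 : ∀ j : Fin D, (![Q.coeff j, 1] : Fin 2 → M) ≠ 0 := by
    intro j h
    have := congrFun h 1
    simp at this
  have h1 : logHeight (fun I : Fin D → Fin 2 => ∏ j : Fin D, (![Q.coeff j, 1] : Fin 2 → M) (I j)) =
      ∑ j : Fin D, logHeight₁ (Q.coeff j) := by
    rw [logHeight_fun_prod_eq (x := fun (j : Fin D) => (![Q.coeff j, 1] : Fin 2 → M)) hx0]
    simp [logHeight₁_eq_logHeight]
  rw [← h1]
  have hmem : ∀ i : Fin (D + 1), ∃ I : Fin D → Fin 2,
      Q.coeff i = ∏ j : Fin D, (![Q.coeff j, 1] : Fin 2 → M) (I j) := by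
    intro i
    by_cases hi : (i : ℕ) < D
    · refine ⟨fun j => if j = ⟨i, hi⟩ then 0 else 1, ?_⟩
      rw [Finset.prod_eq_single ⟨i, hi⟩]
      · simp
      · intro j _ hj
        simp [hj]
      · intro h
        exact absurd (Finset.mem_univ _) h
    · refine ⟨fun _ => 1, ?_⟩
      have h2 : (i : ℕ) = Q.natDegree := by
        have := i.2
        omega
      rw [h2, hQ.coeff_natDegree]
      simp
  have hv : ∀ v : AbsoluteValue M ℝ, ⨆ i : Fin (D + 1), v (Q.coeff i) ≤
      ⨆ I : Fin D → Fin 2, v (∏ j : Fin D, (![Q.coeff j, 1] : Fin 2 → M) (I j)) := by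
    intro v
    refine ciSup_le fun i => ?_
    obtain ⟨I, hI⟩ := hmem i
    rw [hI]
    exact Finite.le_ciSup_of_le I le_rfl
  have h := Pool.Agent.N265.CV.logHeight_le_of (K := M)
    (x := fun i : Fin (D + 1) => Q.coeff i)
    (y := fun I : Fin D → Fin 2 => ∏ j : Fin D, (![Q.coeff j, 1] : Fin 2 → M) (I j)) (by
      intro h
      have h3 := congrFun h ⟨Q.natDegree, by omega⟩
      simp only [Pi.zero_apply] at h3
      rw [hQ.coeff_natDegree] at h3
      exact one_ne_zero h3) (by
      intro h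
      have := congrFun h (fun _ => 1)
      simp at this) 1 le_rfl (fun v => by
        rw [Nat.cast_one, one_mul]
        exact hv v) (fun v _ => hv v)
  have e : cf D Q = fun i : Fin (D + 1) => Q.coeff i := rfl
  rw [e]
  simpa using h

theorem ht_monic {M : Type} [Field M] [NumberField M] (Q : M[X]) (hQ : Q.Monic) (y : M)
    (hy : Q.IsRoot y) : logHeight₁ y ≤ finrank ℚ M * Real.log ((Q.natDegree + 1 : ℕ) : ℝ) +
      ∑ j : Fin Q.natDegree, logHeight₁ (Q.coeff j) :=
  (Pool.Agent.N751.LS.ht_root_le Q.natDegree Q hQ.ne_zero le_rfl y hy).trans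
    (add_le_add le_rfl (ht_cf _ Q hQ rfl))

variable {K : Type} [Field K] [NumberField K] {m : ℕ} {A : Type} [CommRing A]
  [Algebra (MvPolynomial (Fin m) K) A]

/-- the height of the value of an integral element -/
theorem ht_int {a : A} (ha : IsIntegral (MvPolynomial (Fin m) K) a) : ∃ C : ℝ, 0 ≤ C ∧
    ∀ (x : Fin m → K) (L : Type) [Field L] [NumberField L] [Algebra K L] (φ : A →+* L),
      (∀ f : MvPolynomial (Fin m) K, φ (algebraMap (MvPolynomial (Fin m) K) A f) =
        algebraMap K L (MvPolynomial.eval x f)) →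
      logHeight₁ (φ a) ≤ C * finrank K L * (∑ i, logHeight₁ (x i) + 1) := by
  obtain ⟨p, hp, hpa⟩ := ha
  choose c hc0 hc using fun n : ℕ => Pool.Agent.N427.PC.HTMV.t K m (p.coeff n)
  obtain ⟨S, hS⟩ : ∃ S : ℝ, S = ∑ j : Fin p.natDegree, c j := ⟨_, rfl⟩
  have hS0 : 0 ≤ S := by
    rw [hS]
    exact Finset.sum_nonneg fun j _ => hc0 j
  have hl0 : 0 ≤ Real.log ((p.natDegree + 1 : ℕ) : ℝ) := Real.log_natCast_nonneg _
  refine ⟨finrank ℚ K * (Real.log ((p.natDegree + 1 : ℕ) : ℝ) + S), by positivity, ?_⟩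
  intro x L _ _ _ φ hφ
  have : FiniteDimensional K L := Module.Finite.of_restrictScalars_finite ℚ K L
  have hcomp : φ.comp (algebraMap (MvPolynomial (Fin m) K) A) =
      (algebraMap K L).comp (MvPolynomial.eval x) := RingHom.ext hφ
  obtain ⟨Q, hQ⟩ : ∃ Q, Q = p.map (φ.comp (algebraMap (MvPolynomial (Fin m) K) A)) := ⟨_, rfl⟩
  have hQm : Q.Monic := by rw [hQ]; exact hp.map _
  have hQd : Q.natDegree = p.natDegree := by rw [hQ]; exact hp.natDegree_map _
  have hroot : Q.IsRoot (φ a) := by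
    rw [IsRoot.def, hQ, eval_map, ← Polynomial.hom_eval₂, hpa, map_zero]
  have h1 := ht_monic Q hQm (φ a) hroot
  have hfr : (finrank ℚ L : ℝ) = (finrank ℚ K : ℝ) * (finrank K L : ℝ) := by
    exact_mod_cast (Module.finrank_mul_finrank ℚ K L).symm
  have hK1 : (1 : ℝ) ≤ (finrank ℚ K : ℝ) := by
    exact_mod_cast Nat.succ_le_of_lt (Module.finrank_pos (R := ℚ) (M := K))
  have hL0 : (0 : ℝ) ≤ finrank K L := Nat.cast_nonneg _
  have hX0 : 0 ≤ ∑ i, logHeight₁ (x i) := Finset.sum_nonneg fun i _ => zero_le_logHeight₁ _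
  have h2 : ∑ j : Fin Q.natDegree, logHeight₁ (Q.coeff j) ≤
      S * (finrank ℚ K * finrank K L * (∑ i, logHeight₁ (x i) + 1)) := by
    have e1 : ∀ j : ℕ, logHeight₁ (Q.coeff j) ≤
        c j * (finrank ℚ K * finrank K L * (∑ i, logHeight₁ (x i) + 1)) := by
      intro j
      have e2 : Q.coeff j = algebraMap K L (MvPolynomial.eval x (p.coeff j)) := by
        rw [hQ, coeff_map, hcomp]
        rfl
      rw [e2, Pool.Agent.N572.DR.Inv.ht_ext]
      have e3 := hc j K x
      have e4 : MvPolynomial.aeval x (p.coeff j) = MvPolynomial.eval x (p.coeff j) := by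
        rw [MvPolynomial.aeval_def, MvPolynomial.eval, Algebra.algebraMap_self,
          MvPolynomial.coe_eval₂Hom]
      rw [e4] at e3
      have e5 : (∑ i, logHeight₁ (x i) + finrank ℚ K) ≤
          finrank ℚ K * (∑ i, logHeight₁ (x i) + 1) := by nlinarith
      have e6 := mul_le_mul_of_nonneg_left e5 (hc0 j)
      calc (finrank K L : ℝ) * logHeight₁ (MvPolynomial.eval x (p.coeff j)) ≤
            finrank K L * (c j * (finrank ℚ K * (∑ i, logHeight₁ (x i) + 1))) :=
            mul_le_mul_of_nonneg_left (e3.trans e6) hL0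
        _ = _ := by ring
    rw [hS, Finset.sum_mul, hQd]
    exact Finset.sum_le_sum fun j _ => e1 j
  refine h1.trans ((add_le_add le_rfl h2).trans ?_)
  rw [hQd, hfr]
  have h3 : (finrank ℚ K : ℝ) * finrank K L * Real.log ((p.natDegree + 1 : ℕ) : ℝ) ≤
      (finrank ℚ K : ℝ) * finrank K L * Real.log ((p.natDegree + 1 : ℕ) : ℝ) *
        (∑ i, logHeight₁ (x i) + 1) :=
    le_mul_of_one_le_right (by positivity) (by linarith)
  nlinarith

end Pool.Agent.J6H21.LS
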