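import Mathlib

/-!
# Reciprocal polynomials in one of the variables
-/

set_option autoImplicit false

namespace Pool.Agent.J6H21.LS

open MvPolynomial

theorem recip {K : Type} [Field K] {m : ℕ} (i : Fin m) {p : MvPolynomial (Fin m) K} (hp : p ≠ 0) :
    ∃ p' : MvPolynomial (Fin m) K, ¬ X i ∣ p' ∧ ∀ y : Fin m → K, y i ≠ 0 →
      eval y p' = y i ^ (degreeOf i p) * eval (Function.update y i (y i)⁻¹) p := by
  classical
  obtain ⟨e, he⟩ : ∃ e, e = degreeOf i p := ⟨_, rfl⟩
  have hle : ∀ s ∈ p.support, s i ≤ e := by
    intro s hs
    rw [he]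
    exact monomial_le_degreeOf i hs
  obtain ⟨s0, hs0, hs0e⟩ : ∃ s ∈ p.support, s i = e := by
    have h1 : p.support.Nonempty := by rwa [Finset.nonempty_iff_ne_empty, Ne, support_eq_empty]
    obtain ⟨s, hs, h2⟩ := Finset.exists_mem_eq_sup p.support h1 fun s => s i
    exact ⟨s, hs, by rw [he, degreeOf_eq_sup, h2]⟩
  refine ⟨∑ s ∈ p.support, monomial (s.update i (e - s i)) (coeff s p), ?_, ?_⟩
  · intro hd
    obtain ⟨q, hq⟩ := hd
    have h1 : coeff (s0.update i 0) (∑ s ∈ p.support, monomial (s.update i (e - s i)) (coeff s p)) =
        coeff s0 p := by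
      rw [coeff_sum, Finset.sum_eq_single s0]
      · rw [coeff_monomial, if_pos]
        rw [hs0e, Nat.sub_self]
      · intro s hs hne
        rw [coeff_monomial, if_neg]
        intro h
        apply hne
        ext j
        by_cases hj : j = i
        · subst hj
          have h2 := DFunLike.congr_fun h j
          simp only [Finsupp.update_apply, if_true] at h2
          have := hle s hs
          omega
        · have h2 := DFunLike.congr_fun h j
          simpa [Finsupp.update_apply, hj] using h2
      · intro h
        exact absurd hs0 h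
    have h2 : coeff (s0.update i 0) (X i * q) = 0 := by
      rw [coeff_X_mul', if_neg]
      rw [Finsupp.notMem_support_iff]
      simp
    rw [← hq, h1] at h2
    exact (mem_support_iff.1 hs0) h2
  · intro y hy
    rw [← he, map_sum, eval_eq' (Function.update y i (y i)⁻¹) p, Finset.mul_sum]
    refine Finset.sum_congr rfl fun s hs => ?_
    rw [eval_monomial, Finsupp.prod_fintype _ _ (fun j => pow_zero _), mul_left_comm]
    congr 1
    rw [← Finset.mul_prod_erase Finset.univ _ (Finset.mem_univ i),
      ← Finset.mul_prod_erase Finset.univ (fun j => Function.update y i (y i)⁻¹ j ^ s j)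
        (Finset.mem_univ i), ← mul_assoc]
    congr 1
    · simp only [Finsupp.update_apply, if_true, Function.update_self]
      rw [inv_pow, ← div_eq_mul_inv, eq_div_iff (pow_ne_zero _ hy), ← pow_add,
        Nat.sub_add_cancel (hle s hs)]
    · refine Finset.prod_congr rfl fun j hj => ?_
      have hji : j ≠ i := Finset.ne_of_mem_erase hj
      rw [Function.update_of_ne hji, Finsupp.update_apply, if_neg hji]

end Pool.Agent.J6H21.LS
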