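import Mathlib
import Pool.Agent.N459.AC.NRM
import Pool.Agent.N747.AC.Ram
import Pool.Agent.J6H21.LS.Bas

/-!
# Norms of `t - j` and their specialisations
-/

set_option autoImplicit false

namespace Pool.Agent.J6H21.LS

open NumberField IsDedekindDomain Polynomial Module

/-- the norms of all `t - j` are not all constant if `j` is transcendental -/
theorem exists_norm {K k 𝓕 : Type} [Field K] [Infinite K] [Field k] [Field 𝓕] [Algebra K k]
    [Algebra K 𝓕] [Algebra k 𝓕] [IsScalarTower K k 𝓕] [FiniteDimensional k 𝓕] {j : 𝓕}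
    (hj : Transcendental K j) :
    ∃ t : K, Algebra.norm k (algebraMap K 𝓕 t - j) ∉ Set.range (algebraMap K k) := by
  classical
  by_contra hcon
  push Not at hcon
  choose s hs using fun t => hcon t
  obtain ⟨P, hP⟩ : ∃ P : k[X], P = (Algebra.lmul k 𝓕 j).charpoly := ⟨_, rfl⟩
  have hev : ∀ t : K, P.eval (algebraMap K k t) = algebraMap K k (s t) := by
    intro t
    rw [hs t, hP, LinearMap.eval_charpoly, Algebra.norm_apply]
    congr 1
    rw [IsScalarTower.algebraMap_apply K k 𝓕, map_sub]
    congr 1
    exact ((Algebra.lmul k 𝓕).commutes _).symm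
  obtain ⟨S, hS⟩ := Infinite.exists_subset_card_eq K (P.natDegree + 1)
  obtain ⟨Q, hQ⟩ : ∃ Q : K[X], Q = Lagrange.interpolate S id s := ⟨_, rfl⟩
  have hinj : Set.InjOn (id : K → K) S := Set.injOn_id _
  have hQe : ∀ t ∈ S, Q.eval t = s t := by
    intro t ht
    rw [hQ]
    exact Lagrange.eval_interpolate_at_node s hinj ht
  have hQd : Q.degree < S.card := by
    rw [hQ]
    exact Lagrange.degree_interpolate_lt s hinj
  have hPQ : P = Q.map (algebraMap K k) := by
    refine Polynomial.eq_of_degrees_lt_of_eval_index_eq (s := S) (v := fun t => algebraMap K k t)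
      (fun a _ b _ h => (algebraMap K k).injective h) ?_ ?_ ?_
    · rw [hS]
      exact lt_of_le_of_lt degree_le_natDegree (by exact_mod_cast Nat.lt_succ_self _)
    · rwa [degree_map]
    · intro t ht
      rw [hev, eval_map_algebraMap, aeval_algebraMap_apply, ← hQe t ht]
      simp
  have hP0 : P ≠ 0 := by
    rw [hP]
    exact (LinearMap.charpoly_monic _).ne_zero
  have hQ0 : Q ≠ 0 := by
    rintro rfl
    exact hP0 (by rw [hPQ, Polynomial.map_zero])
  have hPj : aeval j P = 0 := by
    have h1 : aeval (Algebra.lmul k 𝓕 j) P = 0 := by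
      rw [hP]
      exact LinearMap.aeval_self_charpoly _
    rw [aeval_algHom_apply] at h1
    have h2 := congrArg (fun f : 𝓕 →ₗ[k] 𝓕 => f 1) h1
    simpa using h2
  apply hj
  refine ⟨Q, hQ0, ?_⟩
  rw [hPQ, aeval_map_algebraMap] at hPj
  exact hPj

section frac

variable {R A k 𝓕 : Type} [CommRing R] [IsDomain R] [CommRing A] [IsDomain A] [Algebra R A]
  [Module.Finite R A] [FaithfulSMul R A] [Field k] [Algebra R k] [IsFractionRing R k] [Field 𝓕]
  [Algebra A 𝓕] [IsFractionRing A 𝓕] [Algebra R 𝓕] [IsScalarTower R A 𝓕] [Algebra k 𝓕]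
  [IsScalarTower R k 𝓕]

/-- the norm over the field of fractions, from a basis -/
theorem norm_frac {N : ℕ} (hN : finrank R A = N) (ω : Fin N → A) (g : R) (hg : g ≠ 0)
    (hω : ∀ a, ∃ r : Fin N → R, algebraMap R A g * a = ∑ i, algebraMap R A (r i) * ω i)
    (u : A) (M : Matrix (Fin N) (Fin N) R)
    (hM : ∀ i, algebraMap R A g * (u * ω i) = ∑ j, algebraMap R A (M i j) * ω j) :
    Algebra.norm k (algebraMap R 𝓕 g * algebraMap A 𝓕 u) = algebraMap R k M.det := by
  have hfr : finrank k 𝓕 = N := by rw [IsFractionRing.finrank_eq R k A 𝓕, hN]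
  have hint : Algebra.IsIntegral R A := inferInstance
  have hinjR : Function.Injective (algebraMap R 𝓕) := by
    rw [IsScalarTower.algebraMap_eq R A 𝓕]
    exact (IsFractionRing.injective A 𝓕).comp (FaithfulSMul.algebraMap_injective R A)
  classical
  have hfin : FiniteDimensional k 𝓕 := by
    have : Module.Finite k 𝓕 := by
      obtain ⟨T, hT⟩ := (Module.Finite.fg_top : (⊤ : Submodule R A).FG)
      refine ⟨⟨T.image (algebraMap A 𝓕), ?_⟩⟩
      rw [eq_top_iff]
      intro y _
      have h1 := IsFractionRing.ideal_span_singleton_map_subset (R := R) (S := A) (K := k) (L := 𝓕)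
        (a := 1) (b := (T : Set A)) hinjR (by
          intro z _
          rw [hT]
          trivial)
      rw [Finset.coe_image]
      apply h1
      rw [map_one, Ideal.span_singleton_one]
      trivial
    exact this
  have hgk : algebraMap R k g ≠ 0 := by
    rw [Ne, map_eq_zero_iff _ (IsFractionRing.injective R k)]
    exact hg
  have hmap : ∀ r : R, algebraMap k 𝓕 (algebraMap R k r) = algebraMap A 𝓕 (algebraMap R A r) := by
    intro r
    rw [← IsScalarTower.algebraMap_apply R k 𝓕, ← IsScalarTower.algebraMap_apply R A 𝓕]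
  have h := Pool.Agent.N459.AC.norm_eq_det (K := k) (L := 𝓕) hfr (fun i => algebraMap A 𝓕 (ω i))
    (algebraMap R k g) hgk ?_ (algebraMap R 𝓕 g * algebraMap A 𝓕 u)
    ((algebraMap R k).mapMatrix M) ?_
  · rw [h, RingHom.map_det]
  · -- spanning
    have h1 := IsFractionRing.ideal_span_singleton_map_subset (R := R) (S := A) (K := k) (L := 𝓕)
      (a := algebraMap R A g) (b := Set.range ω) hinjR (by
        intro z hz
        obtain ⟨a, rfl⟩ := Ideal.mem_span_singleton.1 hz
        obtain ⟨r, hr⟩ := hω a
        rw [hr]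
        refine Submodule.sum_mem _ fun i _ => ?_
        rw [← Algebra.smul_def]
        exact Submodule.smul_mem _ _ (Submodule.subset_span ⟨i, rfl⟩))
    intro y
    have h2 : algebraMap k 𝓕 (algebraMap R k g) * y ∈
        Submodule.span k (Set.range fun i => algebraMap A 𝓕 (ω i)) := by
      have h3 : (algebraMap A 𝓕 '' Set.range ω) = Set.range fun i => algebraMap A 𝓕 (ω i) := by
        rw [← Set.range_comp]
        rfl
      rw [← h3]
      apply h1
      rw [hmap]
      exact Ideal.mem_span_singleton.2 ⟨y, rfl⟩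
    rw [Submodule.mem_span_range_iff_exists_fun] at h2
    obtain ⟨r, hr⟩ := h2
    refine ⟨r, ?_⟩
    rw [← hr]
    exact Finset.sum_congr rfl fun i _ => Algebra.smul_def _ _
  · intro i
    have h2 := congrArg (algebraMap A 𝓕) (hM i)
    rw [map_mul, map_mul, map_sum] at h2
    rw [IsScalarTower.algebraMap_apply R A 𝓕 g, mul_assoc, h2]
    refine Finset.sum_congr rfl fun l _ => ?_
    rw [map_mul, RingHom.mapMatrix_apply, Matrix.map_apply, hmap]

end frac

end Pool.Agent.J6H21.LS
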