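import Mathlib
import Pool.Agent.J6H21.LS.Nrm

/-!
# The norm of `t - j` at the points
-/

set_option autoImplicit false
set_option linter.unusedSectionVars false

namespace Pool.Agent.J6H21.LS

open NumberField IsDedekindDomain Polynomial Module

section

variable {K : Type} [Field K] {m : ℕ} {A : Type} [CommRing A] [IsDomain A]
  [Algebra K A] [Algebra (MvPolynomial (Fin m) K) A] [IsScalarTower K (MvPolynomial (Fin m) K) A]
  [Module.Finite (MvPolynomial (Fin m) K) A] [FaithfulSMul (MvPolynomial (Fin m) K) A]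
  {k 𝓕 : Type} [Field k] [Algebra (MvPolynomial (Fin m) K) k]
  [IsFractionRing (MvPolynomial (Fin m) K) k] [Field 𝓕]
  [Algebra A 𝓕] [IsFractionRing A 𝓕] [Algebra (MvPolynomial (Fin m) K) 𝓕]
  [IsScalarTower (MvPolynomial (Fin m) K) A 𝓕] [Algebra k 𝓕]
  [IsScalarTower (MvPolynomial (Fin m) K) k 𝓕]

/-- the determinants of the multiplication by `u` -/
theorem norm_point {N : ℕ} (ω : Fin N → A) (g : MvPolynomial (Fin m) K)
    (hω : ∀ a, ∃ r : Fin N → MvPolynomial (Fin m) K,
      algebraMap (MvPolynomial (Fin m) K) A g * a =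
        ∑ i, algebraMap (MvPolynomial (Fin m) K) A (r i) * ω i)
    (u : A) (M : Matrix (Fin N) (Fin N) (MvPolynomial (Fin m) K))
    (hM : ∀ i, algebraMap (MvPolynomial (Fin m) K) A g * (u * ω i) =
      ∑ j, algebraMap (MvPolynomial (Fin m) K) A (M i j) * ω j)
    {L : Type} [Field L] [Algebra K L] [FiniteDimensional K L] (φ : A →+* L) (x : Fin m → K)
    (hφs : Function.Surjective φ) (hfr : finrank K L = N)
    (hφ : ∀ f : MvPolynomial (Fin m) K, φ (algebraMap (MvPolynomial (Fin m) K) A f) =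
      algebraMap K L (MvPolynomial.eval x f)) (hgx : MvPolynomial.eval x g ≠ 0) :
    Algebra.norm K (algebraMap K L (MvPolynomial.eval x g) * φ u) = MvPolynomial.eval x M.det := by
  have h1 := Pool.Agent.N459.AC.norm_eq_det hfr (fun i => φ (ω i)) (MvPolynomial.eval x g) hgx (by
    intro y
    obtain ⟨a, rfl⟩ := hφs y
    obtain ⟨r, hr⟩ := hω a
    refine ⟨fun i => MvPolynomial.eval x (r i), ?_⟩
    have h2 := congrArg φ hr
    rw [map_mul, hφ, map_sum] at h2
    rw [h2]
    refine Finset.sum_congr rfl fun i _ => ?_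
    rw [map_mul, hφ]) (algebraMap K L (MvPolynomial.eval x g) * φ u)
    ((MvPolynomial.eval x).mapMatrix M) (by
    intro i
    have h2 := congrArg φ (hM i)
    rw [map_mul, map_mul, hφ, map_sum] at h2
    rw [mul_assoc, h2]
    refine Finset.sum_congr rfl fun j _ => ?_
    rw [map_mul, hφ]
    rfl)
  rw [h1, RingHom.map_det]

theorem rel {N : ℕ} (hN : finrank (MvPolynomial (Fin m) K) A = N) (ω : Fin N → A)
    (g : MvPolynomial (Fin m) K)
    (hω : ∀ a, ∃ r : Fin N → MvPolynomial (Fin m) K,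
      algebraMap (MvPolynomial (Fin m) K) A g * a =
        ∑ i, algebraMap (MvPolynomial (Fin m) K) A (r i) * ω i)
    {b c : A} (hb : b ≠ 0) (t : K) (p q : MvPolynomial (Fin m) K)
    (hpq : algebraMap (MvPolynomial (Fin m) K) k q * Algebra.norm k (algebraMap A 𝓕 (algebraMap K A t) -
      algebraMap A 𝓕 c / algebraMap A 𝓕 b) = algebraMap (MvPolynomial (Fin m) K) k p)
    {L : Type} [Field L] [Algebra K L] [FiniteDimensional K L] (φ : A →+* L) (x : Fin m → K)
    (hφs : Function.Surjective φ) (hfr : finrank K L = N)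
    (hφ : ∀ f : MvPolynomial (Fin m) K, φ (algebraMap (MvPolynomial (Fin m) K) A f) =
      algebraMap K L (MvPolynomial.eval x f)) (hgx : MvPolynomial.eval x g ≠ 0)
    (hbx : φ b ≠ 0) :
    MvPolynomial.eval x q * Algebra.norm K (algebraMap K L t - φ c / φ b) =
      MvPolynomial.eval x p := by
  have hg : g ≠ 0 := by
    rintro rfl
    exact hgx (map_zero _)
  have hbF : algebraMap A 𝓕 b ≠ 0 := by
    rw [Ne, map_eq_zero_iff _ (IsFractionRing.injective A 𝓕)]
    exact hb
  have hM : ∀ u : A, ∃ M : Matrix (Fin N) (Fin N) (MvPolynomial (Fin m) K),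
      ∀ i, algebraMap (MvPolynomial (Fin m) K) A g * (u * ω i) =
        ∑ j, algebraMap (MvPolynomial (Fin m) K) A (M i j) * ω j := by
    intro u
    choose r hr using fun i => hω (u * ω i)
    exact ⟨Matrix.of r, hr⟩
  obtain ⟨M1, hM1⟩ := hM (algebraMap K A t * b - c)
  obtain ⟨M2, hM2⟩ := hM b
  have e1 := norm_frac (k := k) (𝓕 := 𝓕) hN ω g hg hω _ M1 hM1
  have e2 := norm_frac (k := k) (𝓕 := 𝓕) hN ω g hg hω _ M2 hM2
  have e3 : algebraMap (MvPolynomial (Fin m) K) 𝓕 g *
      algebraMap A 𝓕 (algebraMap K A t * b - c) =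
      (algebraMap A 𝓕 (algebraMap K A t) - algebraMap A 𝓕 c / algebraMap A 𝓕 b) *
        (algebraMap (MvPolynomial (Fin m) K) 𝓕 g * algebraMap A 𝓕 b) := by
    rw [map_sub, map_mul]
    field_simp
  rw [e3, map_mul, e2] at e1
  have e4 : q * M1.det = p * M2.det := by
    apply IsFractionRing.injective (MvPolynomial (Fin m) K) k
    rw [map_mul, map_mul, ← e1, ← mul_assoc, hpq]
  have f1 := norm_point ω g hω _ M1 hM1 φ x hφs hfr hφ hgx
  have f2 := norm_point ω g hω _ M2 hM2 φ x hφs hfr hφ hgx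
  have hKA : φ (algebraMap K A t) = algebraMap K L t := by
    rw [IsScalarTower.algebraMap_apply K (MvPolynomial (Fin m) K) A, hφ]
    congr 1
    simp
  have f3 : algebraMap K L (MvPolynomial.eval x g) * φ (algebraMap K A t * b - c) =
      (algebraMap K L t - φ c / φ b) * (algebraMap K L (MvPolynomial.eval x g) * φ b) := by
    rw [map_sub, map_mul, hKA]
    field_simp
  rw [f3, map_mul, f2] at f1
  have f4 : MvPolynomial.eval x M2.det ≠ 0 := by
    rw [← f2, Ne, Algebra.norm_eq_zero_iff]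
    exact mul_ne_zero (by rwa [Ne, map_eq_zero]) hbx
  have f5 := congrArg (MvPolynomial.eval x) e4
  rw [map_mul, map_mul, ← f1, ← mul_assoc] at f5
  exact mul_right_cancel₀ f4 f5

end

section pole

variable {K L : Type} [Field K] [NumberField K] [Field L] [NumberField L] [Algebra K L]

theorem val_gt_one {w : HeightOneSpectrum (𝓞 L)} {z : L} (h : 1 < FinitePlace.mk w z) :
    1 < w.valuation L z := by
  by_contra hcon
  rw [not_lt] at hcon
  rw [Pool.Agent.N747.AC.mk_eq] at h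
  have h1 := (WithZeroMulInt.toNNReal_le_one_iff (m := w.valuation L z)
    (HeightOneSpectrum.one_lt_absNorm_nnreal w)).2 hcon
  have h2 : ((WithZeroMulInt.toNNReal (HeightOneSpectrum.absNorm_ne_zero w)
      (w.valuation L z) : NNReal) : ℝ) ≤ 1 := by exact_mod_cast h1
  linarith

/-- a pole above `v` -/
theorem exists_pole {v : HeightOneSpectrum (𝓞 K)} {t : K} (ht : FinitePlace.mk v t ≤ 1) {z : L}
    (hn : 1 < FinitePlace.mk v (Algebra.norm K (algebraMap K L t - z))) :
    ∃ w : HeightOneSpectrum (𝓞 L), v.asIdeal.map (algebraMap (𝓞 K) (𝓞 L)) ≤ w.asIdeal ∧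
      1 < w.valuation L z := by
  by_contra hcon
  push Not at hcon
  have hint : ∀ w : HeightOneSpectrum (𝓞 L), v.asIdeal.map (algebraMap (𝓞 K) (𝓞 L)) ≤ w.asIdeal →
      FinitePlace.mk w (algebraMap K L t - z) ≤ 1 := by
    intro w hw
    have h1 : FinitePlace.mk w z ≤ 1 := by
      by_contra h
      exact absurd (val_gt_one (not_le.1 h)) (not_lt.2 (hcon w hw))
    have h2 := (Pool.Agent.N459.AC.above hw ht).1
    exact (Pool.Agent.N459.AC.Ow (FinitePlace.mk w)).sub_mem h2 h1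
  obtain ⟨d, hd, η, hη⟩ := Pool.Agent.N747.AC.exists_den hint
  have h1 : Algebra.norm K (algebraMap (𝓞 L) L (algebraMap (𝓞 K) (𝓞 L) d) *
      (algebraMap K L t - z)) = algebraMap (𝓞 K) K d ^ finrank K L *
        Algebra.norm K (algebraMap K L t - z) := by
    rw [map_mul, Pool.Agent.N747.AC.coeAlg, Algebra.norm_algebraMap]
  rw [hη] at h1
  have h2 : IsIntegral ℤ (Algebra.norm K (algebraMap (𝓞 L) L η)) :=
    Algebra.isIntegral_norm K (NumberField.RingOfIntegers.isIntegral_coe η)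
  obtain ⟨y, hy⟩ : ∃ y : 𝓞 K, algebraMap (𝓞 K) K y = Algebra.norm K (algebraMap (𝓞 L) L η) :=
    ⟨⟨_, h2⟩, rfl⟩
  have h3 : FinitePlace.mk v (algebraMap (𝓞 K) K y) ≤ 1 := FinitePlace.norm_le_one K v y
  have h4 : FinitePlace.mk v (algebraMap (𝓞 K) K d) = 1 :=
    (FinitePlace.norm_eq_one_iff_notMem K v d).2 hd
  rw [hy, h1, map_mul, map_pow, h4, one_pow, one_mul] at h3
  linarith

theorem absNorm_le {v : HeightOneSpectrum (𝓞 K)} {w : HeightOneSpectrum (𝓞 L)}
    (h : v.asIdeal.map (algebraMap (𝓞 K) (𝓞 L)) ≤ w.asIdeal) :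
    v.asIdeal = w.asIdeal.comap (algebraMap (𝓞 K) (𝓞 L)) ∧
      Ideal.absNorm v.asIdeal ≤ Ideal.absNorm w.asIdeal := by
  have h1 : v.asIdeal ≤ w.asIdeal.comap (algebraMap (𝓞 K) (𝓞 L)) := Ideal.map_le_iff_le_comap.1 h
  have h2 : (w.asIdeal.comap (algebraMap (𝓞 K) (𝓞 L))).IsPrime := Ideal.comap_isPrime _ _
  have h3 : v.asIdeal = w.asIdeal.comap (algebraMap (𝓞 K) (𝓞 L)) :=
    v.isMaximal.eq_of_le h2.ne_top h1
  refine ⟨h3, ?_⟩
  have hfin : Finite (𝓞 L ⧸ w.asIdeal) := Ideal.finiteQuotientOfFreeOfNeBot _ w.ne_bot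
  rw [Ideal.absNorm_apply, Ideal.absNorm_apply, Submodule.cardQuot_apply,
    Submodule.cardQuot_apply]
  exact Nat.card_le_card_of_injective (Ideal.quotientMap w.asIdeal (algebraMap (𝓞 K) (𝓞 L)) h1)
    (Ideal.quotientMap_injective' h3.ge)

end pole

end Pool.Agent.J6H21.LS
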