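import Mathlib
import Pool.Agent.J6H21.LS.Rel
import Pool.Agent.J6H21.LS.Rcp
import Pool.Agent.J6H21.LS.Gd

/-!
# The poles of a function on a cover of the affine space at almost all points
-/

set_option autoImplicit false
set_option linter.unusedSectionVars false

namespace Pool.Agent.J6H21.LS

open NumberField IsDedekindDomain Finset Pool.Agent.H691R3
open Pool.Agent.TH876.Loc hiding mx
open Pool.Agent.N753.LS Pool.Agent.N753.SF Pool.Agent.N753.SU Pool.Agent.N753.AC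

variable {K : Type} [Field K] [NumberField K] {m : ℕ} {A : Type} [CommRing A] [IsDomain A]
  [Algebra K A] [Algebra (MvPolynomial (Fin m) K) A] [IsScalarTower K (MvPolynomial (Fin m) K) A]
  [Module.Finite (MvPolynomial (Fin m) K) A] [FaithfulSMul (MvPolynomial (Fin m) K) A]
  {k 𝓕 : Type} [Field k] [Algebra (MvPolynomial (Fin m) K) k]
  [IsFractionRing (MvPolynomial (Fin m) K) k] [Field 𝓕]
  [Algebra A 𝓕] [IsFractionRing A 𝓕] [Algebra (MvPolynomial (Fin m) K) 𝓕]
  [IsScalarTower (MvPolynomial (Fin m) K) A 𝓕] [Algebra k 𝓕]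
  [IsScalarTower (MvPolynomial (Fin m) K) k 𝓕]

/-- inversion of the coordinate `x_i` -/
noncomputable def flipI (i : Fin m) (x : Fin m → K) : Fin m → K := Function.update x i (x i)⁻¹

/-- the point `φ` over `x`, of degree `N` over `K` -/
def Over (N : ℕ) (x : Fin m → K) {L : Type} [Field L] [Algebra K L] (φ : A →+* L) : Prop :=
  Function.Surjective φ ∧ Module.finrank K L = N ∧
    ∀ f : MvPolynomial (Fin m) K, φ (algebraMap (MvPolynomial (Fin m) K) A f) =
      algebraMap K L (MvPolynomial.eval x f)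

/-- a pole over `F = 0` -/
theorem poleA (hUM : StmUM) {E1 E2 : Set (Fin m → K)} (h1 : Prop1 E1) (h2 : Prop2 E2)
    {b c : A} (hb : b ≠ 0) (t : K) (p q : MvPolynomial (Fin m) K)
    (hpq : algebraMap (MvPolynomial (Fin m) K) k q * Algebra.norm k (algebraMap A 𝓕 (algebraMap K A t) -
      algebraMap A 𝓕 c / algebraMap A 𝓕 b) = algebraMap (MvPolynomial (Fin m) K) k p)
    {F : MvPolynomial (Fin m) K} (hF : Irreducible F) (hFq : F ∣ q) (hFp : ¬ F ∣ p) :
    ∃ h0 : ℝ, ∀ x : Fin m → K, x ∉ E1 → x ∉ E2 → h0 ≤ htm x →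
      ∀ (L : Type) [Field L] [NumberField L] [Algebra K L] (φ : A →+* L),
        Over (Module.finrank (MvPolynomial (Fin m) K) A) x φ → φ b ≠ 0 →
        ∃ V : Finset (Pr K), (1 / 2 : ℝ) * htm x ≤ ∑ v ∈ V, Real.log (Nv v) ∧
          ∀ v ∈ V, ∃ w : HeightOneSpectrum (𝓞 L),
            v.asIdeal.map (algebraMap (𝓞 K) (𝓞 L)) ≤ w.asIdeal ∧
              1 < w.valuation L (φ c / φ b) := by
  classical
  obtain ⟨q', rfl⟩ := hFq
  obtain ⟨ω, g, hg, hω⟩ := local_basis (A := A) F hF.prime _ rfl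
  have hgp : ¬ F ∣ g * p := fun h => (hF.prime.dvd_or_dvd h).elim hg hFp
  have hev : ∀ᶠ v : HeightOneSpectrum (𝓞 K) in Filter.cofinite,
      ((∀ x : Fin m → K, (∀ i, FinitePlace.mk v (x i) ≤ 1) →
        FinitePlace.mk v (MvPolynomial.eval x g) ≤ 1) ∧
      (∀ x : Fin m → K, (∀ i, FinitePlace.mk v (x i) ≤ 1) →
        FinitePlace.mk v (MvPolynomial.eval x p) ≤ 1)) ∧
      (∀ x : Fin m → K, (∀ i, FinitePlace.mk v (x i) ≤ 1) →
        FinitePlace.mk v (MvPolynomial.eval x q') ≤ 1) ∧ FinitePlace.mk v t ≤ 1 :=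
    ((Pool.Agent.N459.AC.ev_poly g).and (Pool.Agent.N459.AC.ev_poly p)).and
      ((Pool.Agent.N459.AC.ev_poly q').and (Pool.Agent.N459.AC.ev_const t))
  rw [Filter.eventually_cofinite] at hev
  obtain ⟨a1, ha1⟩ := gd_cnt hUM h1 h2 hF hgp hev.toFinset
  obtain ⟨a2, ha2⟩ := h2 F (g * p) (hF.isRelPrime_iff_not_dvd.2 hgp) 1 one_pos
  refine ⟨max a1 a2, ?_⟩
  intro x hx1 hx2 hh L _ _ _ φ hφ hbx
  obtain ⟨hφs, hfr, hφ⟩ := hφ
  have : FiniteDimensional K L := Module.Finite.of_restrictScalars_finite ℚ K L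
  have hFx : MvPolynomial.eval x F ≠ 0 := by
    intro h0
    have h3 := (ha2 x hx2 ((le_max_right _ _).trans hh)).1
    rcases h3 with h3 | h3
    · exact h3 h0
    · rw [map_mul] at h3
      have h4 := rel rfl ω g hω hb t p (F * q') hpq φ x hφs hfr hφ (left_ne_zero_of_mul h3) hbx
      rw [map_mul, h0, zero_mul, zero_mul] at h4
      exact right_ne_zero_of_mul h3 h4.symm
  refine ⟨gd F (g * p) hev.toFinset x, ha1 x hx1 hx2 ((le_max_left _ _).trans hh) hFx, ?_⟩
  intro v hv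
  unfold gd at hv
  rw [Finset.mem_filter, mem_ddm hFx, Set.Finite.mem_toFinset, Set.mem_ofPred_eq, not_not] at hv
  obtain ⟨⟨hxv, hFv⟩, ⟨⟨hvg, hvp⟩, hvq, hvt⟩, hgv⟩ := hv
  have hxv' : ∀ i, FinitePlace.mk v (x i) ≤ 1 := hxv
  have hFv' : FinitePlace.mk v (MvPolynomial.eval x F) < 1 := hFv
  have hgv' : FinitePlace.mk v (MvPolynomial.eval x g) * FinitePlace.mk v (MvPolynomial.eval x p) =
      1 := by
    rw [← map_mul, ← map_mul]
    exact hgv
  have k1 := hvg x hxv'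
  have k2 := hvp x hxv'
  have k3 := hvq x hxv'
  have k4 : (0 : ℝ) ≤ FinitePlace.mk v (MvPolynomial.eval x g) := apply_nonneg _ _
  have k5 : (0 : ℝ) ≤ FinitePlace.mk v (MvPolynomial.eval x p) := apply_nonneg _ _
  have k6 : FinitePlace.mk v (MvPolynomial.eval x p) = 1 := by
    refine le_antisymm k2 ?_
    rw [← hgv']
    exact mul_le_of_le_one_left k5 k1
  have hgx : MvPolynomial.eval x g ≠ 0 := by
    intro h0
    rw [h0, map_zero, zero_mul] at hgv'
    exact zero_ne_one hgv'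
  have h4 := rel rfl ω g hω hb t p (F * q') hpq φ x hφs hfr hφ hgx hbx
  refine exists_pole hvt ?_
  have h5 := congrArg (FinitePlace.mk v) h4
  rw [map_mul, map_mul, map_mul, k6] at h5
  have k7 : FinitePlace.mk v (MvPolynomial.eval x F) * FinitePlace.mk v (MvPolynomial.eval x q') <
      1 := lt_of_le_of_lt (mul_le_of_le_one_right (apply_nonneg _ _) k3) hFv'
  by_contra hcon
  rw [not_lt] at hcon
  have k8 : (0 : ℝ) ≤ FinitePlace.mk v (MvPolynomial.eval x F) *
    FinitePlace.mk v (MvPolynomial.eval x q') := mul_nonneg (apply_nonneg _ _) (apply_nonneg _ _)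
  have k9 := mul_le_of_le_one_right k8 hcon
  rw [h5] at k9
  linarith

theorem htm_flipI (i : Fin m) (x : Fin m → K) : htm (flipI i x) = htm x := by
  unfold htm
  congr 1
  funext j
  unfold flipI
  by_cases hj : j = i
  · subst hj
    rw [Function.update_self, Height.logHeight₁_inv]
  · rw [Function.update_of_ne hj]

theorem flipI_flipI (i : Fin m) (x : Fin m → K) : flipI i (flipI i x) = x := by
  unfold flipI
  rw [Function.update_self, inv_inv, Function.update_idem, Function.update_eq_self]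

/-- a pole over `x_i = ∞` -/
theorem poleB (hUM : StmUM) {E1 E2 : Set (Fin m → K)} (h1 : Prop1 E1) (h2 : Prop2 E2)
    {b c : A} (hb : b ≠ 0) (t : K) (p : MvPolynomial (Fin m) K)
    (hp : Algebra.norm k (algebraMap A 𝓕 (algebraMap K A t) -
      algebraMap A 𝓕 c / algebraMap A 𝓕 b) = algebraMap (MvPolynomial (Fin m) K) k p)
    {i : Fin m} (hi : p.degreeOf i ≠ 0) :
    ∃ h0 : ℝ, ∀ x : Fin m → K, flipI i x ∉ E1 → flipI i x ∉ E2 → h0 ≤ htm x →
      ∀ (L : Type) [Field L] [NumberField L] [Algebra K L] (φ : A →+* L),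
        Over (Module.finrank (MvPolynomial (Fin m) K) A) x φ → φ b ≠ 0 →
        ∃ V : Finset (Pr K), (1 / 2 : ℝ) * htm x ≤ ∑ v ∈ V, Real.log (Nv v) ∧
          ∀ v ∈ V, ∃ w : HeightOneSpectrum (𝓞 L),
            v.asIdeal.map (algebraMap (𝓞 K) (𝓞 L)) ≤ w.asIdeal ∧
              1 < w.valuation L (φ c / φ b) := by
  classical
  have hX : Irreducible (MvPolynomial.X i : MvPolynomial (Fin m) K) :=
    MvPolynomial.X_prime.irreducible
  obtain ⟨ω, g, hg, hω⟩ := local_basis (A := A) (MvPolynomial.X i : MvPolynomial (Fin m) K)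
    hX.prime _ rfl
  have hg0 : g ≠ 0 := fun h => hg (h ▸ dvd_zero _)
  have hp0 : p ≠ 0 := by
    rintro rfl
    exact hi (MvPolynomial.degreeOf_zero i)
  obtain ⟨g', hg', hge⟩ := recip i hg0
  obtain ⟨p', hp', hpe⟩ := recip i hp0
  have hgp : ¬ MvPolynomial.X i ∣ g' * p' := fun h => (hX.prime.dvd_or_dvd h).elim hg' hp'
  have hev : ∀ᶠ v : HeightOneSpectrum (𝓞 K) in Filter.cofinite,
      ((∀ x : Fin m → K, (∀ i, FinitePlace.mk v (x i) ≤ 1) →
        FinitePlace.mk v (MvPolynomial.eval x g') ≤ 1) ∧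
      (∀ x : Fin m → K, (∀ i, FinitePlace.mk v (x i) ≤ 1) →
        FinitePlace.mk v (MvPolynomial.eval x p') ≤ 1)) ∧ FinitePlace.mk v t ≤ 1 :=
    ((Pool.Agent.N459.AC.ev_poly g').and (Pool.Agent.N459.AC.ev_poly p')).and
      (Pool.Agent.N459.AC.ev_const t)
  rw [Filter.eventually_cofinite] at hev
  obtain ⟨a1, ha1⟩ := gd_cnt hUM h1 h2 hX hgp hev.toFinset
  obtain ⟨a2, ha2⟩ := h1 0 Fin.elim0 ∅ (fun j => j.elim0) (fun j => j.elim0) (1 / 2) (by norm_num)
  refine ⟨max (max a1 a2) 1, ?_⟩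
  intro x hx1 hx2 hh L _ _ _ φ hφ hbx
  obtain ⟨hφs, hfr, hφ⟩ := hφ
  have : FiniteDimensional K L := Module.Finite.of_restrictScalars_finite ℚ K L
  obtain ⟨y, hy⟩ : ∃ y, y = flipI i x := ⟨_, rfl⟩
  have hyx : flipI i y = x := by rw [hy, flipI_flipI]
  rw [← hy] at hx1 hx2
  have hht : htm y = htm x := by rw [hy, htm_flipI]
  rw [← hht] at hh ⊢
  have hyi : y i ≠ 0 := by
    intro h0
    obtain ⟨-, h3⟩ := ha2 y hx1 ((le_max_right _ _).trans ((le_max_left _ _).trans hh))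
      (fun j => j.elim0)
    have h4 := h3 i
    rw [h0, hr_aff, Height.logHeight₁_zero] at h4
    have h5 : 1 ≤ htm y := (le_max_right _ _).trans hh
    linarith
  have hFy : MvPolynomial.eval y (MvPolynomial.X i : MvPolynomial (Fin m) K) ≠ 0 := by
    rwa [MvPolynomial.eval_X]
  refine ⟨gd (MvPolynomial.X i) (g' * p') hev.toFinset y,
    ha1 y hx1 hx2 ((le_max_left _ _).trans ((le_max_left _ _).trans hh)) hFy, ?_⟩
  intro v hv
  unfold gd at hv
  rw [Finset.mem_filter, mem_ddm hFy, Set.Finite.mem_toFinset, Set.mem_ofPred_eq, not_not] at hv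
  obtain ⟨⟨hxv, hFv⟩, ⟨⟨hvg, hvp⟩, hvt⟩, hgv⟩ := hv
  have hxv' : ∀ i, FinitePlace.mk v (y i) ≤ 1 := hxv
  have hFv' : FinitePlace.mk v (y i) < 1 := by
    rw [MvPolynomial.eval_X] at hFv
    exact hFv
  have hgv' : FinitePlace.mk v (MvPolynomial.eval y g') *
      FinitePlace.mk v (MvPolynomial.eval y p') = 1 := by
    rw [← map_mul, ← map_mul]
    exact hgv
  have k1 := hvg y hxv'
  have k2 := hvp y hxv'
  have k4 : (0 : ℝ) ≤ FinitePlace.mk v (MvPolynomial.eval y g') := apply_nonneg _ _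
  have k5 : (0 : ℝ) ≤ FinitePlace.mk v (MvPolynomial.eval y p') := apply_nonneg _ _
  have k6 : FinitePlace.mk v (MvPolynomial.eval y p') = 1 := by
    refine le_antisymm k2 ?_
    rw [← hgv']
    exact mul_le_of_le_one_left k5 k1
  have hgy : MvPolynomial.eval y g' ≠ 0 := by
    intro h0
    rw [h0, map_zero, zero_mul] at hgv'
    exact zero_ne_one hgv'
  have e1 := hge y hyi
  have e2 := hpe y hyi
  have e3 : Function.update y i (y i)⁻¹ = x := hyx
  rw [e3] at e1 e2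
  have hgx : MvPolynomial.eval x g ≠ 0 := by
    intro h0
    rw [h0, mul_zero] at e1
    exact hgy e1
  have h4 := rel (k := k) (𝓕 := 𝓕) rfl ω g hω hb t p 1 (by rw [map_one, one_mul, hp]) φ x hφs hfr hφ hgx hbx
  rw [map_one, one_mul] at h4
  refine exists_pole hvt ?_
  rw [h4]
  have h5 := congrArg (FinitePlace.mk v) e2
  rw [map_mul, map_pow, k6] at h5
  by_contra hcon
  rw [not_lt] at hcon
  have k8 : (FinitePlace.mk v (y i)) ^ (p.degreeOf i) < 1 :=
    pow_lt_one₀ (apply_nonneg _ _) hFv' hi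
  have k9 : (0 : ℝ) ≤ (FinitePlace.mk v (y i)) ^ (p.degreeOf i) := pow_nonneg (apply_nonneg _ _) _
  have k10 := mul_le_of_le_one_right k9 hcon
  rw [← h5] at k10
  linarith

end Pool.Agent.J6H21.LS
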