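import Mathlib
import Pool.Agent.J6H21.LS.Pol
import Pool.Agent.J6H21.LS.Hgt
import Pool.Agent.N751.LS.Core

/-!
# All functions on all covers of the affine space at almost all points
-/

set_option autoImplicit false
set_option linter.unusedSectionVars false

namespace Pool.Agent.J6H21.LS

open NumberField IsDedekindDomain Finset Pool.Agent.H691R3
open Pool.Agent.TH876.Loc hiding mx
open Pool.Agent.N753.LS Pool.Agent.N753.SF Pool.Agent.N753.SU Pool.Agent.N753.AC

variable {K : Type} [Field K] [NumberField K] {m : ℕ} {A : Type} [CommRing A] [IsDomain A]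
  [Algebra K A] [Algebra (MvPolynomial (Fin m) K) A] [IsScalarTower K (MvPolynomial (Fin m) K) A]
  [Module.Finite (MvPolynomial (Fin m) K) A] [FaithfulSMul (MvPolynomial (Fin m) K) A]

attribute [local instance] FractionRing.liftAlgebra FractionRing.isScalarTower_liftAlgebra

/-- the poles of `c / b` at almost all points -/
theorem poles (hUM : StmUM) {E1 E2 : Set (Fin m → K)} (h1 : Prop1 E1) (h2 : Prop2 E2)
    {b c : A} (hb : b ≠ 0)
    (hj : Transcendental K (algebraMap A (FractionRing A) c / algebraMap A (FractionRing A) b)) :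
    ∃ h0 : ℝ, ∀ x : Fin m → K, x ∉ E1 → x ∉ E2 → (∀ i, flipI i x ∉ E1 ∧ flipI i x ∉ E2) →
      h0 ≤ htm x → ∀ (L : Type) [Field L] [NumberField L] [Algebra K L] (φ : A →+* L),
        Over (Module.finrank (MvPolynomial (Fin m) K) A) x φ → φ b ≠ 0 →
        ∃ V : Finset (Pr K), (1 / 2 : ℝ) * htm x ≤ ∑ v ∈ V, Real.log (Nv v) ∧
          ∀ v ∈ V, ∃ w : HeightOneSpectrum (𝓞 L),
            v.asIdeal.map (algebraMap (𝓞 K) (𝓞 L)) ≤ w.asIdeal ∧
              1 < w.valuation L (φ c / φ b) := by
  classical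
  let R := MvPolynomial (Fin m) K
  let k := FractionRing R
  let 𝓕 := FractionRing A
  have hinjR : Function.Injective (algebraMap R 𝓕) := by
    rw [IsScalarTower.algebraMap_eq R A 𝓕]
    exact (IsFractionRing.injective A 𝓕).comp (FaithfulSMul.algebraMap_injective R A)
  have : IsScalarTower K k 𝓕 := by
    refine IsScalarTower.of_algebraMap_eq fun r => ?_
    rw [IsScalarTower.algebraMap_apply K R k, ← IsScalarTower.algebraMap_apply R k 𝓕,
      IsScalarTower.algebraMap_apply K A 𝓕, IsScalarTower.algebraMap_apply K R A,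
      ← IsScalarTower.algebraMap_apply R A 𝓕]
  have hfin : FiniteDimensional k 𝓕 := by
    have : Module.Finite k 𝓕 := by
      obtain ⟨T, hT⟩ := (Module.Finite.fg_top : (⊤ : Submodule R A).FG)
      refine ⟨⟨T.image (algebraMap A 𝓕), ?_⟩⟩
      rw [eq_top_iff]
      intro y _
      have h1 := IsFractionRing.ideal_span_singleton_map_subset (R := R) (S := A) (K := k) (L := 𝓕)
        (a := 1) (b := (T : Set A)) hinjR (by
          intro z _
          rw [hT]
          trivial)
      rw [Finset.coe_image]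
      apply h1
      rw [map_one, Ideal.span_singleton_one]
      trivial
    exact this
  obtain ⟨t, ht⟩ := exists_norm (K := K) (k := k) (𝓕 := 𝓕) hj
  rw [IsScalarTower.algebraMap_apply K A 𝓕] at ht
  obtain ⟨n, hn⟩ : ∃ n : k, n = Algebra.norm k (algebraMap A 𝓕 (algebraMap K A t) -
      algebraMap A 𝓕 c / algebraMap A 𝓕 b) := ⟨_, rfl⟩
  rw [← hn] at ht
  obtain ⟨p, hp⟩ : ∃ p : R, p = IsFractionRing.num R n := ⟨_, rfl⟩
  obtain ⟨q, hq⟩ : ∃ q : R, q = (IsFractionRing.den R n : R) := ⟨_, rfl⟩
  have hq0 : q ≠ 0 := by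
    rw [hq]
    exact nonZeroDivisors.coe_ne_zero _
  have hq0' : algebraMap R k q ≠ 0 := by
    rwa [Ne, map_eq_zero_iff _ (IsFractionRing.injective R k)]
  have hpq : algebraMap R k q * n = algebraMap R k p := by
    have h3 := IsFractionRing.mk'_num_den' (A := R) (K := k) n
    rw [← hp, ← hq, div_eq_iff hq0'] at h3
    rw [h3, mul_comm]
  by_cases hqu : IsUnit q
  · -- a polynomial
    have hint : IsLocalization.IsInteger R n :=
      IsFractionRing.isInteger_of_isUnit_den (A := R) (by rwa [← hq])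
    obtain ⟨p', hp'⟩ := hint
    have hdeg : ∃ i, p'.degreeOf i ≠ 0 := by
      by_contra hcon
      push Not at hcon
      have h3 : p'.totalDegree = 0 := by
        rw [MvPolynomial.totalDegree_eq_zero_iff]
        intro s hs i
        have := MvPolynomial.monomial_le_degreeOf i hs
        rw [hcon i] at this
        omega
      rw [MvPolynomial.totalDegree_eq_zero_iff_eq_C] at h3
      apply ht
      refine ⟨MvPolynomial.coeff 0 p', ?_⟩
      rw [← hp', IsScalarTower.algebraMap_apply K R k]
      exact congrArg (algebraMap R k) h3.symm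
    obtain ⟨i, hi⟩ := hdeg
    obtain ⟨h0, hh⟩ := poleB (k := k) (𝓕 := 𝓕) hUM h1 h2 (c := c) hb t p' (by rw [← hn, hp']) hi
    exact ⟨h0, fun x _ _ hx => hh x (hx i).1 (hx i).2⟩
  · obtain ⟨F, hF, hFq⟩ := WfDvdMonoid.exists_irreducible_factor hqu hq0
    have hFp : ¬ F ∣ p := by
      intro hFp
      have h3 := IsFractionRing.num_den_reduced R n
      rw [← hp, ← hq] at h3
      exact hF.not_isUnit (h3 hFp hFq)
    obtain ⟨h0, hh⟩ := poleA (k := k) (𝓕 := 𝓕) hUM h1 h2 (c := c) hb t p q (by rw [← hn, hpq])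
      hF hFq hFp
    exact ⟨h0, fun x hx1 hx2 _ => hh x hx1 hx2⟩

end Pool.Agent.J6H21.LS
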